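import Mathlib

set_option autoImplicit false

open Computability

namespace Pool.Agent.Lib.MP_c9c291_lc

/-- A family of languages over finite alphabets. -/
def Family : Type 1 := ∀ (X : Type) [Finite X], Language X → Prop

/-- An agsm with input alphabet `X` and output alphabet `Y`. -/
structure AGSM (X Y : Type) : Type 1 where
  Q : Type
  fin : Finite Q
  q0 : Q
  final : Set Q
  t : Q → X → Q
  h : Q → X → List Y

/-- The output map extended to words. -/
def outw {Q X Y : Type} (t : Q → X → Q) (h : Q → X → List Y) : Q → List X → List Y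
  | _, [] => []
  | q, x :: w => h q x ++ outw t h (t q x) w

/-- `g⁻¹(M)`: the words `w` with `t(q₀, w)` final and `h(q₀, w) ∈ M`. -/
def AGSM.inv {X Y : Type} (g : AGSM X Y) (M : Language Y) : Language X :=
  {w | w.foldl g.t g.q0 ∈ g.final ∧ outw g.t g.h g.q0 w ∈ M}

/-- Inverse image under the homomorphism determined by `φ : X → Y*`. -/
def invHom {X Y : Type} (φ : X → List Y) (M : Language Y) : Language X :=
  {w | w.flatMap φ ∈ M}

/-- Languages obtained from `L₀` by finitely many operations `agsm⁻¹`. -/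
inductive GenA {Y : Type} (L0 : Language Y) : (X : Type) → Language X → Prop
  | base : GenA L0 Y L0
  | inv {X Z : Type} [Finite X] [Finite Z] (g : AGSM X Z) {M : Language Z} :
      GenA L0 Z M → GenA L0 X (g.inv M)

/-- Languages obtained from `L₀` by finitely many operations of `C`. -/
inductive GenC {Y : Type} (L0 : Language Y) : (X : Type) → Language X → Prop
  | base : GenC L0 Y L0
  | hom {X Z : Type} [Finite X] [Finite Z] (φ : X → List Z) {M : Language Z} :
      GenC L0 Z M → GenC L0 X (invHom φ M)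
  | reg {X : Type} {M R : Language X} : R.IsRegular → GenC L0 X M → GenC L0 X (M ⊓ R)

/-- Closed under `agsm⁻¹` and `{agsm⁻¹}`-principal. -/
def IsAgsmPrincipal (F : Family) : Prop :=
  (∀ (X Z : Type) [Finite X] [Finite Z] (g : AGSM X Z) (M : Language Z), F Z M → F X (g.inv M)) ∧
  ∃ (Y : Type) (_ : Finite Y) (L0 : Language Y), F Y L0 ∧
    ∀ (X : Type) [Finite X] (L : Language X), F X L → GenA L0 X L

/-- Closed under `C` and `C`-principal. -/
def IsCPrincipal (F : Family) : Prop :=
  (∀ (X Z : Type) [Finite X] [Finite Z] (φ : X → List Z) (M : Language Z),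
    F Z M → F X (invHom φ M)) ∧
  (∀ (X : Type) [Finite X] (M R : Language X), R.IsRegular → F X M → F X (M ⊓ R)) ∧
  ∃ (Y : Type) (_ : Finite Y) (L0 : Language Y), F Y L0 ∧
    ∀ (X : Type) [Finite X] (L : Language X), F X L → GenC L0 X L

/-- The new letters `y`, `ȳ`, `z` of the alphabet `X ⊕ Fin 3`. -/
def ly {X : Type} : X ⊕ Fin 3 := Sum.inr 0
def lb {X : Type} : X ⊕ Fin 3 := Sum.inr 1
def lz {X : Type} : X ⊕ Fin 3 := Sum.inr 2

/-- `V i w`: the word `w` is generated from the nonterminal `vᵢ`. -/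
inductive V {X : Type} : ℕ → List (X ⊕ Fin 3) → Prop
  | v0_v1 {w} : V 1 w → V 0 w
  | v0_eps : V 0 []
  | v1_y {w} : V 2 w → V 1 (ly :: w ++ [lb])
  | v1_v3 {w} : V 3 w → V 1 (w ++ [lz])
  | v1_z : V 1 [lz]
  | v2_x {w} (x : X) : V 2 w → V 2 (w ++ [Sum.inl x])
  | v2_y {w} : V 2 w → V 2 (w ++ [ly])
  | v2_v1 {w} : V 1 w → V 2 w
  | v3_x {w} (x : X) : V 3 w → V 3 (w ++ [Sum.inl x])
  | v3_y {w} : V 3 w → V 3 (w ++ [ly])
  | v3_b {w} : V 3 w → V 3 (w ++ [lb])
  | v3_end : V 3 [lb]

/-- The language consisting of the one-letter word `a`. -/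
def one {W : Type} (a : W) : Language W := {w | w = [a]}

/-- The language `X` of one-letter words over the old alphabet. -/
def langX (X : Type) : Language (X ⊕ Fin 3) := {w | ∃ x : X, w = [Sum.inl x]}

/-- `B = y + (ȳ X* y⁺)*`. -/
def langB (X : Type) : Language (X ⊕ Fin 3) :=
  one ly + (one lb * (langX X)∗ * (one ly * (one ly)∗))∗

/-- `Body f w`: `w ∈ f₁ A f₂ A ⋯ A fₙ B` for `f = f₁ ⋯ fₙ`, `n ≥ 1`. -/
inductive Body {X : Type} : List X → List (X ⊕ Fin 3) → Prop
  | last (f : X) {b} : b ∈ langB X → Body [f] (Sum.inl f :: b)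
  | cons (f : X) {a fs w} : V 0 a → Body fs w → Body (f :: fs) (Sum.inl f :: a ++ w)

/-- The transformation `T`. -/
def transT {X : Type} (L : Language X) : Language (X ⊕ Fin 3) :=
  {u | ∃ f ∈ L, ∃ w, Body f w ∧ u = lz :: lb :: w}

end Pool.Agent.Lib.MP_c9c291_lc
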