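import Mathlib
import Pool.Agent.Lib.MP_c9c291_lc.Defs

set_option autoImplicit false

open Computability

namespace Pool.Agent.Lib.MP_c9c291_lc

/-- `B = y⁺ (ȳ X* y⁺)*`, the second reading of the tail language. -/
def langBp (X : Type) : Language (X ⊕ Fin 3) :=
  (one ly * (one ly)∗) * (one lb * (langX X)∗ * (one ly * (one ly)∗))∗

/-- `BodyB B f w`: `w ∈ f₁ A f₂ A ⋯ A fₙ B` for `f = f₁ ⋯ fₙ`, `n ≥ 1`. -/
inductive BodyB {X : Type} (B : Language (X ⊕ Fin 3)) : List X → List (X ⊕ Fin 3) → Prop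
  | last (f : X) {b} : b ∈ B → BodyB B [f] (Sum.inl f :: b)
  | cons (f : X) {a fs w} : V 0 a → BodyB B fs w → BodyB B (f :: fs) (Sum.inl f :: a ++ w)

/-- The transformation `T` with tail language `B`. -/
def transTB {X : Type} (B : Language (X ⊕ Fin 3)) (L : Language X) : Language (X ⊕ Fin 3) :=
  {u | ∃ f ∈ L, ∃ w, BodyB B f w ∧ u = lz :: lb :: w}

end Pool.Agent.Lib.MP_c9c291_lc
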