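import Mathlib
import Pool.Agent.Lib.MP_c9c291_lc.Defs

set_option autoImplicit false

open Computability

namespace Pool.Agent.Lib.MP_c9c291_lc

variable {X : Type}

/-- Parser states: `(0, n)` counting, `(1, n)` waiting for `z`, `(2, n)` skipping. -/
def sk (n : ℕ) : ℕ × ℕ := if n = 0 then (0, 0) else (2, n)

def pstep (s : ℕ × ℕ) (a : X ⊕ Fin 3) : ℕ × ℕ :=
  match a with
  | Sum.inl _ => s
  | Sum.inr i =>
    if s.1 = 0 then (if i = 0 then (0, s.2 + 1) else if i = 1 then (1, s.2) else sk s.2)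
    else if s.1 = 1 then (if i = 2 then sk s.2 else s)
    else (if i = 1 then sk (s.2 - 1) else s)

def pout (s : ℕ × ℕ) (a : X ⊕ Fin 3) : List X :=
  match a with
  | Sum.inl x => if s = (0, 0) then [x] else []
  | Sum.inr _ => []

theorem outw_append {Q X Y : Type} (t : Q → X → Q) (h : Q → X → List Y) (u v : List X) :
    ∀ q, outw t h q (u ++ v) = outw t h q u ++ outw t h (u.foldl t q) v := by
  induction u with
  | nil => intro q; rfl
  | cons x u ih => intro q; simp [outw, ih]

theorem V_parse {i : ℕ} {w : List (X ⊕ Fin 3)} (h : V i w) :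
    (i = 0 → w.foldl pstep (0, 0) = (0, 0) ∧ outw pstep pout (0, 0) w = []) ∧
    (i = 1 → ∀ k, w.foldl pstep (0, k) = sk k ∧ outw pstep pout (0, k) w = []) ∧
    (i = 2 → ∀ k, w.foldl pstep (0, k + 1) = (2, k + 1) ∧ outw pstep pout (0, k + 1) w = []) ∧
    (i = 3 → ∀ k, w.foldl pstep (0, k) = (1, k) ∧ outw pstep pout (0, k) w = []) := by
  induction h with
  | v0_v1 _ ih => simpa [sk] using ih.2.1 rfl 0
  | v0_eps => simp [outw]
  | v1_y _ ih =>
    refine ⟨by simp, fun _ k => ?_, by simp, by simp⟩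
    obtain ⟨h1, h2⟩ := ih.2.2.1 rfl k
    simp [outw, outw_append, List.foldl_append, pstep, pout, ly, lb, h1, h2]
  | v1_v3 _ ih =>
    refine ⟨by simp, fun _ k => ?_, by simp, by simp⟩
    obtain ⟨h1, h2⟩ := ih.2.2.2 rfl k
    simp [outw, outw_append, List.foldl_append, pstep, pout, lz, h1, h2]
  | v1_z =>
    refine ⟨by simp, fun _ k => ?_, by simp, by simp⟩
    simp [outw, pstep, pout, lz]
  | v2_x x _ ih =>
    refine ⟨by simp, by simp, fun _ k => ?_, by simp⟩
    obtain ⟨h1, h2⟩ := ih.2.2.1 rfl k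
    simp [outw, outw_append, List.foldl_append, pstep, pout, h1, h2]
  | v2_y _ ih =>
    refine ⟨by simp, by simp, fun _ k => ?_, by simp⟩
    obtain ⟨h1, h2⟩ := ih.2.2.1 rfl k
    simp [outw, outw_append, List.foldl_append, pstep, pout, ly, h1, h2]
  | v2_v1 _ ih =>
    refine ⟨by simp, by simp, fun _ k => ?_, by simp⟩
    simpa [sk] using ih.2.1 rfl (k + 1)
  | v3_x x _ ih =>
    refine ⟨by simp, by simp, by simp, fun _ k => ?_⟩
    obtain ⟨h1, h2⟩ := ih.2.2.2 rfl k
    simp [outw, outw_append, List.foldl_append, pstep, pout, h1, h2]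
  | v3_y _ ih =>
    refine ⟨by simp, by simp, by simp, fun _ k => ?_⟩
    obtain ⟨h1, h2⟩ := ih.2.2.2 rfl k
    simp [outw, outw_append, List.foldl_append, pstep, pout, ly, h1, h2]
  | v3_b _ ih =>
    refine ⟨by simp, by simp, by simp, fun _ k => ?_⟩
    obtain ⟨h1, h2⟩ := ih.2.2.2 rfl k
    simp [outw, outw_append, List.foldl_append, pstep, pout, lb, h1, h2]
  | v3_end =>
    refine ⟨by simp, by simp, by simp, fun _ k => ?_⟩
    simp [outw, pstep, pout, lb]

theorem wait_noz (w : List (X ⊕ Fin 3)) (hw : lz ∉ w) :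
    outw pstep pout (1, 0) w = [] := by
  induction w with
  | nil => rfl
  | cons a w ih =>
    have h1 : a ≠ lz := fun h => hw (by simp [h])
    have h2 : lz ∉ w := fun h => hw (by simp [h])
    rcases a with x | i
    · simp [outw, pstep, pout, ih h2]
    · have : i ≠ 2 := fun h => h1 (by simp [h, lz])
      simp [outw, pstep, pout, this, ih h2]

theorem kstar_letters {W : Type} (L : Language W) (P : W → Prop)
    (hL : ∀ w ∈ L, ∀ a ∈ w, P a) : ∀ w ∈ L∗, ∀ a ∈ w, P a := by
  intro w hw a ha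
  obtain ⟨S, rfl, hS⟩ := Language.mem_kstar.1 hw
  obtain ⟨l, hl, hal⟩ := List.mem_flatten.1 ha
  exact hL l (hS l hl) a hal

theorem blockB (w : List (X ⊕ Fin 3))
    (hw : w ∈ one lb * (langX X)∗ * (one ly * (one ly)∗)) :
    (∃ w', w = lb :: w') ∧ ∀ a ∈ w, a ≠ lz := by
  obtain ⟨a, ha, b, hb, rfl⟩ := Language.mem_mul.1 hw
  obtain ⟨a1, ha1, a2, ha2, rfl⟩ := Language.mem_mul.1 ha
  obtain ⟨b1, hb1, b2, hb2, rfl⟩ := Language.mem_mul.1 hb
  have e1 : a1 = [lb] := ha1
  have e2 : b1 = [ly] := hb1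
  have h1 := kstar_letters (langX X) (· ≠ lz) (by
    rintro w ⟨x, rfl⟩ a ha; simp at ha; simp [ha, lz]) a2 ha2
  have h2 := kstar_letters (one (ly : X ⊕ Fin 3)) (· ≠ lz) (by
    intro w hw a ha
    have : w = [ly] := hw
    subst this; simp at ha; simp [ha, lz, ly]) b2 hb2
  subst e1 e2
  refine ⟨⟨_, by simp; rfl⟩, ?_⟩
  intro a ha
  simp only [List.mem_append, List.mem_singleton] at ha
  rcases ha with (h | h) | h | h
  · simp [h, lb, lz]
  · exact h1 a h
  · simp [h, ly, lz]
  · exact h2 a h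

theorem B_parse (b : List (X ⊕ Fin 3)) (hb : b ∈ langB X) : outw pstep pout (0, 0) b = [] := by
  rcases (Language.mem_add _ _ _).1 hb with h | h
  · have : b = [ly] := h
    subst this
    simp [outw, pout, ly]
  · have hz := kstar_letters _ (· ≠ lz) (fun w hw => (blockB w hw).2) b h
    obtain ⟨S, rfl, hS⟩ := Language.mem_kstar.1 h
    cases S with
    | nil => rfl
    | cons l S =>
      obtain ⟨w', rfl⟩ := (blockB l (hS l List.mem_cons_self)).1
      have hz' : lz ∉ w' ++ S.flatten := fun h => hz lz (by simp at h ⊢; tauto) rfl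
      have := wait_noz _ hz'
      simpa [outw, pstep, pout, lb] using this

theorem Body_parse {f : List X} {w : List (X ⊕ Fin 3)} (h : Body f w) :
    outw pstep pout (0, 0) w = f := by
  induction h with
  | last f hb => simp [outw, pstep, pout, B_parse _ hb]
  | cons f ha _ ih =>
    obtain ⟨h1, h2⟩ := (V_parse ha).1 rfl
    simp [outw, outw_append, pstep, pout, h1, h2, ih]

theorem Body_unique {f f' : List X} {w : List (X ⊕ Fin 3)} (h : Body f w) (h' : Body f' w) :
    f = f' := by rw [← Body_parse h, Body_parse h']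

theorem mem_transT_iff {f : List X} {w : List (X ⊕ Fin 3)} (h : Body f w) (M : Language X) :
    lz :: lb :: w ∈ transT M ↔ f ∈ M := by
  constructor
  · rintro ⟨f', hf', w', hw', e⟩
    simp only [List.cons.injEq, true_and] at e
    rw [Body_unique h (e ▸ hw')]; exact hf'
  · intro hf
    exact ⟨f, hf, w, h, rfl⟩

theorem Body_rep (p : X) (N : ℕ) {f : List X} {w : List (X ⊕ Fin 3)} (h : Body f w) :
    Body (List.replicate N p ++ f) (List.replicate N (Sum.inl p) ++ w) := by
  induction N with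
  | zero => simpa using h
  | succ N ih =>
    have := Body.cons p V.v0_eps ih
    simpa [List.replicate_succ] using this

theorem V1_zero (m : ℕ) :
    V 1 (List.replicate m ly ++ lz :: List.replicate m (lb : X ⊕ Fin 3)) := by
  induction m with
  | zero => exact V.v1_z
  | succ m ih =>
    have := V.v1_y (V.v2_v1 ih)
    rw [List.replicate_succ, List.replicate_succ']
    simpa using this

/-- `(ȳ y)^d`. -/
def by_ (d : ℕ) : List (X ⊕ Fin 3) := (List.replicate d [lb, ly]).flatten

theorem V1_more (p : X) (m d : ℕ) :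
    V 1 (List.replicate (m + (d + 1)) ly ++ lz :: List.replicate m (lb : X ⊕ Fin 3) ++
      Sum.inl p :: by_ d ++ [lb]) := by
  induction d with
  | zero =>
    have := V.v1_y (V.v2_x p (V.v2_v1 (V1_zero (X := X) m)))
    simpa [by_, List.replicate_succ] using this
  | succ d ih =>
    have := V.v1_y (V.v2_y (V.v2_v1 ih))
    have e : by_ (X := X) (d + 1) = by_ d ++ [lb, ly] := by
      simp [by_, List.replicate_succ']
    rw [show m + (d + 1 + 1) = (m + (d + 1)) + 1 by ring, List.replicate_succ, e]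
    simpa using this

theorem mem_B1 : [ly] ∈ langB X := (Language.mem_add _ _ _).2 (Or.inl rfl)

theorem mem_B2 (q : X) (d : ℕ) : by_ d ++ [lb, Sum.inl q, ly] ∈ langB X := by
  apply (Language.mem_add _ _ _).2 (Or.inr _)
  have hy : [ly] ∈ one (ly : X ⊕ Fin 3) * (one ly)∗ :=
    Language.mem_mul.2 ⟨[ly], rfl, [], Language.nil_mem_kstar _, rfl⟩
  have h1 : [lb, ly] ∈ one lb * (langX X)∗ * (one ly * (one ly)∗) :=
    Language.mem_mul.2 ⟨[lb], Language.mem_mul.2 ⟨[lb], rfl, [], Language.nil_mem_kstar _, rfl⟩,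
      [ly], hy, rfl⟩
  have hq : [Sum.inl q] ∈ (langX X)∗ :=
    Language.mem_kstar.2 ⟨[[Sum.inl q]], rfl, by
      intro y hy; simp at hy; exact ⟨q, hy⟩⟩
  have h2 : [lb, Sum.inl q, ly] ∈ one lb * (langX X)∗ * (one ly * (one ly)∗) :=
    Language.mem_mul.2 ⟨[lb, Sum.inl q], Language.mem_mul.2 ⟨[lb], rfl, _, hq, rfl⟩,
      [ly], hy, rfl⟩
  refine Language.mem_kstar.2 ⟨List.replicate d [lb, ly] ++ [[lb, Sum.inl q, ly]], by
    simp [by_], ?_⟩
  intro y hy
  rcases List.mem_append.1 hy with h | h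
  · rw [(List.mem_replicate.1 h).2]; exact h1
  · rw [List.mem_singleton.1 h]; exact h2

/-- Common head and tail of the two test words. -/
def hd (p : X) (N : ℕ) : List (X ⊕ Fin 3) :=
  lz :: lb :: List.replicate (N + 1) (Sum.inl p)

def tl (p q : X) (m d : ℕ) : List (X ⊕ Fin 3) :=
  lz :: List.replicate m lb ++ Sum.inl p :: by_ d ++ [lb, Sum.inl q, ly]

theorem test1 (p q : X) (N m d : ℕ) (M : Language X) :
    hd p N ++ List.replicate m ly ++ tl p q m d ∈ transT M ↔
      List.replicate (N + 1) p ++ [p] ∈ M := by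
  have h := Body_rep p N (Body.cons p (V.v0_v1 (V1_zero m)) (Body.last p (mem_B2 q d)))
  have := mem_transT_iff h M
  rw [List.replicate_succ' (n := N) (a := p)]
  simpa [hd, tl, List.replicate_succ'] using this

theorem test2 (p q : X) (N m d : ℕ) (M : Language X) :
    hd p N ++ List.replicate (m + (d + 1)) ly ++ tl p q m d ∈ transT M ↔
      List.replicate (N + 1) p ++ [q] ∈ M := by
  have h := Body_rep p N (Body.cons p (V.v0_v1 (V1_more p m d)) (Body.last q mem_B1))
  have := mem_transT_iff h M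
  rw [List.replicate_succ' (n := N) (a := p)]
  simpa [hd, tl, List.replicate_succ' (n := N)] using this

end Pool.Agent.Lib.MP_c9c291_lc
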