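import Mathlib
import Pool.Agent.Lib.MP_c9c291_lc.TLem

set_option autoImplicit false

namespace Pool.Agent.Lib.MP_c9c291_lc

/-- Powers of a word. -/
def pw {W : Type} (u : List W) (n : ℕ) : List W := (List.replicate n u).flatten

theorem pw_zero {W : Type} (u : List W) : pw u 0 = [] := rfl

theorem pw_succ {W : Type} (u : List W) (n : ℕ) : pw u (n + 1) = u ++ pw u n := by
  simp [pw, List.replicate_succ]

theorem pw_add {W : Type} (u : List W) (m n : ℕ) : pw u (m + n) = pw u m ++ pw u n := by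
  unfold pw; rw [List.replicate_add, List.flatten_append]

theorem pw_pw {W : Type} (u : List W) (P j : ℕ) : pw (pw u P) j = pw u (P * j) := by
  induction j with
  | zero => rfl
  | succ j ih => rw [pw_succ, ih, ← pw_add]; congr 1; ring

theorem pw_length {W : Type} (u : List W) (n : ℕ) : (pw u n).length = n * u.length := by
  simp [pw]

theorem pw_single {W : Type} (a : W) (n : ℕ) : pw [a] n = List.replicate n a := by
  induction n with
  | zero => rfl
  | succ n ih => rw [pw_succ, ih]; rfl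

theorem pw_map {W W' : Type} (f : W → W') (u : List W) (n : ℕ) :
    (pw u n).map f = pw (u.map f) n := by
  simp [pw, List.map_flatten]

theorem pw_conj {W : Type} (x y : List W) (n : ℕ) :
    pw (x ++ y) (n + 1) = x ++ pw (y ++ x) n ++ y := by
  induction n with
  | zero => simp [pw]
  | succ n ih => rw [pw_succ, ih, pw_succ]; simp

theorem foldl_pw {Q W : Type} (t : Q → W → Q) (u : List W) (n : ℕ) :
    ∀ q, (pw u n).foldl t q = (fun q => u.foldl t q)^[n] q := by
  induction n with
  | zero => intro q; rfl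
  | succ n ih => intro q; rw [pw_succ, List.foldl_append, ih]; rfl

theorem outw_pw {Q W Y : Type} (t : Q → W → Q) (h : Q → W → List Y) (u : List W) (q : Q)
    (hq : u.foldl t q = q) (n : ℕ) :
    (pw u n).foldl t q = q ∧ outw t h q (pw u n) = pw (outw t h q u) n := by
  induction n with
  | zero => exact ⟨rfl, rfl⟩
  | succ n ih =>
    rw [pw_succ, List.foldl_append, outw_append, hq, ih.1, ih.2, pw_succ]
    exact ⟨rfl, rfl⟩

theorem outw_length_le {Q W Y : Type} (t : Q → W → Q) (h : Q → W → List Y) (P L : ℕ)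
    (hb : ∀ q x, P * (h q x).length ≤ L) (u : List W) :
    ∀ q, P * (outw t h q u).length ≤ L * u.length := by
  induction u with
  | nil => intro q; simp [outw]
  | cons x u ih =>
    intro q
    have := ih (t q x)
    have := hb q x
    simp only [outw, List.length_append, List.length_cons]
    nlinarith

theorem exists_idem (Q : Type) [Finite Q] :
    ∃ P : ℕ, 0 < P ∧ ∀ (f : Q → Q) (q : Q), f^[P] (f^[P] q) = f^[P] q := by
  classical
  have := Fintype.ofFinite Q
  refine ⟨(Fintype.card Q).factorial, Nat.factorial_pos _, fun f q => ?_⟩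
  obtain ⟨i, j, hne, hij⟩ := Fintype.exists_ne_map_eq_of_card_lt
    (fun i : Fin (Fintype.card Q + 1) => f^[i] q) (by simp)
  have key : ∀ i j : ℕ, i < j → j ≤ Fintype.card Q → f^[i] q = f^[j] q →
      f^[(Fintype.card Q).factorial] q ∈ Function.periodicPts f := by
    intro i j h1 h2 h3
    have hp : Function.IsPeriodicPt f (j - i) (f^[i] q) := by
      unfold Function.IsPeriodicPt Function.IsFixedPt
      rw [← Function.iterate_add_apply, Nat.sub_add_cancel h1.le, h3]
    have hle : i ≤ (Fintype.card Q).factorial :=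
      le_trans (by omega) (Nat.self_le_factorial _)
    have := hp.apply_iterate ((Fintype.card Q).factorial - i)
    rw [← Function.iterate_add_apply, Nat.sub_add_cancel hle] at this
    exact ⟨j - i, by omega, this⟩
  have hper : f^[(Fintype.card Q).factorial] q ∈ Function.periodicPts f := by
    rcases lt_or_gt_of_ne hne with h | h
    · exact key i j h (by omega) hij
    · exact key j i h (by omega) hij.symm
  exact Function.isPeriodicPt_factorial_card_of_mem_periodicPts hper

/-- Data of the self-referential coding. -/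
structure Coding (Y : Type) : Type 1 where
  sp : Y
  ze : Y
  ne : sp ≠ ze
  D : Type
  A : D → AGSM ℕ Y
  idx : D → ℕ → ℕ
  inj : ∀ k x k' x', idx k x = idx k' x' → k = k' ∧ x = x'
  P : D → ℕ
  Ppos : ∀ k, 0 < P k
  Pid : ∀ k (f : (A k).Q → (A k).Q) q, f^[P k] (f^[P k] q) = f^[P k] q
  L : D → ℕ
  bound : ∀ k q x, P k * P k * ((A k).h q x).length ≤ L k
  bound2 : ∀ k x, L k ≤ idx k x

variable {Y : Type} (c : Coding Y)

def Coding.cw (j : ℕ) : List Y := c.sp :: List.replicate (2 ^ j) c.ze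

def Coding.C (js : List ℕ) : List Y := js.flatMap c.cw

def Coding.enc (k : c.D) (w : List ℕ) : List Y := c.C (w.map (c.idx k))

theorem C_cons (j : ℕ) (js : List ℕ) :
    c.C (j :: js) = c.sp :: (List.replicate (2 ^ j) c.ze ++ c.C js) := by
  simp [Coding.C, Coding.cw]

theorem C_append (a b : List ℕ) : c.C (a ++ b) = c.C a ++ c.C b := by
  simp [Coding.C]

theorem C_pw (a : List ℕ) (n : ℕ) : c.C (pw a n) = pw (c.C a) n := by
  induction n with
  | zero => rfl
  | succ n ih => rw [pw_succ, pw_succ, C_append, ih]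

theorem C_letters (js : List ℕ) : ∀ a ∈ c.C js, a = c.sp ∨ a = c.ze := by
  intro a ha
  simp only [Coding.C, Coding.cw, List.mem_flatMap, List.mem_cons, List.mem_replicate] at ha
  obtain ⟨j, _, h | h⟩ := ha
  · exact Or.inl h
  · exact Or.inr h.2

theorem C_head (js : List ℕ) : (c.C js).head? ≠ some c.ze := by
  cases js with
  | nil => simp [Coding.C]
  | cons j js => rw [C_cons]; simpa using c.ne

theorem rep_cancel (z : Y) : ∀ (n n' : ℕ) (R R' : List Y), R.head? ≠ some z → R'.head? ≠ some z →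
    List.replicate n z ++ R = List.replicate n' z ++ R' → n = n' ∧ R = R' := by
  intro n
  induction n with
  | zero =>
    intro n' R R' h1 _ h
    cases n' with
    | zero => exact ⟨rfl, by simpa using h⟩
    | succ n' =>
      exfalso; apply h1
      simp only [List.replicate_zero, List.nil_append] at h
      rw [h]; simp [List.replicate_succ]
  | succ n ih =>
    intro n' R R' h1 h2 h
    cases n' with
    | zero =>
      exfalso; apply h2
      simp only [List.replicate_zero, List.nil_append] at h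
      rw [← h]; simp [List.replicate_succ]
    | succ n' =>
      simp only [List.replicate_succ, List.cons_append, List.cons.injEq, true_and] at h
      obtain ⟨e1, e2⟩ := ih n' R R' h1 h2 h
      exact ⟨by omega, e2⟩

theorem C_inj : ∀ js js' : List ℕ, c.C js = c.C js' → js = js' := by
  intro js
  induction js with
  | nil =>
    intro js' h
    cases js' with
    | nil => rfl
    | cons j js' => rw [C_cons] at h; simp [Coding.C] at h
  | cons j js ih =>
    intro js' h
    cases js' with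
    | nil => rw [C_cons] at h; simp [Coding.C] at h
    | cons j' js' =>
      rw [C_cons, C_cons] at h
      simp only [List.cons.injEq, true_and] at h
      obtain ⟨e1, e2⟩ := rep_cancel c.ze _ _ _ _ (C_head c js) (C_head c js') h
      rw [Nat.pow_right_injective (le_refl 2) e1, ih js' e2]

theorem rep_split (s z : Y) (hne : s ≠ z) : ∀ (n : ℕ) (R α γ : List Y),
    List.replicate n z ++ R = α ++ s :: γ →
      ∃ α', α = List.replicate n z ++ α' ∧ R = α' ++ s :: γ := by
  intro n
  induction n with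
  | zero => intro R α γ h; exact ⟨α, by simp, by simpa using h⟩
  | succ n ih =>
    intro R α γ h
    cases α with
    | nil =>
      simp only [List.replicate_succ, List.cons_append, List.nil_append, List.cons.injEq] at h
      exact absurd h.1.symm hne
    | cons a α =>
      simp only [List.replicate_succ, List.cons_append, List.cons.injEq] at h
      obtain ⟨α', e1, e2⟩ := ih R α γ h.2
      exact ⟨α', by rw [List.replicate_succ, e1, ← h.1]; rfl, e2⟩

theorem C_split : ∀ (js : List ℕ) (α γ : List Y), c.C js = α ++ c.sp :: γ →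
    ∃ js1 js2, js = js1 ++ js2 ∧ c.C js1 = α ∧ c.C js2 = c.sp :: γ := by
  intro js
  induction js with
  | nil => intro α γ h; simp [Coding.C] at h
  | cons j js ih =>
    intro α γ h
    cases α with
    | nil => exact ⟨[], j :: js, rfl, rfl, h⟩
    | cons a α =>
      rw [C_cons] at h
      simp only [List.cons_append, List.cons.injEq] at h
      obtain ⟨α', e1, e2⟩ := rep_split c.sp c.ze c.ne _ _ _ _ h.2
      obtain ⟨js1, js2, e3, e4, e5⟩ := ih α' γ e2
      exact ⟨j :: js1, js2, by rw [e3]; rfl, by rw [C_cons, e4, e1, h.1], e5⟩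

theorem lead_rep (z : Y) (γ : List Y) :
    ∃ b γ0, γ = List.replicate b z ++ γ0 ∧ γ0.head? ≠ some z := by
  induction γ with
  | nil => exact ⟨0, [], rfl, by simp⟩
  | cons a γ ih =>
    by_cases h : a = z
    · obtain ⟨b, γ0, e, h0⟩ := ih
      exact ⟨b + 1, γ0, by rw [e, h, List.replicate_succ]; rfl, h0⟩
    · exact ⟨0, a :: γ, rfl, by simpa using h⟩

theorem trail_rep (z : Y) (α : List Y) :
    ∃ a α0, α = α0 ++ List.replicate a z ∧ (α0 = [] ∨ ∃ α1 s, α0 = α1 ++ [s] ∧ s ≠ z) := by
  induction α using List.reverseRecOn with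
  | nil => exact ⟨0, [], rfl, Or.inl rfl⟩
  | append_singleton α s ih =>
    by_cases h : s = z
    · obtain ⟨a, α0, e, h0⟩ := ih
      exact ⟨a + 1, α0, by rw [e, h, List.replicate_succ']; simp, h0⟩
    · exact ⟨0, α ++ [s], by simp, Or.inr ⟨α, s, rfl, h⟩⟩

theorem C_run (α γ : List Y) : ∃ e : ℕ, ∀ (A : ℕ) (js : List ℕ), 1 ≤ A →
    c.C js = α ++ List.replicate A c.ze ++ γ → ∃ j, e + A = 2 ^ j := by
  obtain ⟨b, γ0, rfl, hγ⟩ := lead_rep c.ze γ
  obtain ⟨a, α0, rfl, hα⟩ := trail_rep c.ze α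
  refine ⟨a + b, fun A js hA h => ?_⟩
  have e : α0 ++ List.replicate a c.ze ++ List.replicate A c.ze ++ (List.replicate b c.ze ++ γ0) =
      α0 ++ (List.replicate (a + b + A) c.ze ++ γ0) := by
    rw [show a + b + A = a + A + b by ring, List.replicate_add, List.replicate_add]
    simp only [List.append_assoc]
  rw [e] at h
  rcases hα with h0 | ⟨α1, s, h0, hs⟩
  · exfalso
    apply C_head c js
    rw [h, h0, show a + b + A = (a + b + A - 1) + 1 by omega, List.replicate_succ]
    rfl
  · have hsp : s = c.sp := by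
      rcases C_letters c js s (by rw [h, h0]; simp) with h1 | h1
      · exact h1
      · exact absurd h1 hs
    rw [h0, hsp, List.append_assoc, List.singleton_append] at h
    obtain ⟨js1, js2, -, -, e2⟩ := C_split c js _ _ h
    cases js2 with
    | nil => simp [Coding.C] at e2
    | cons j js2 =>
      rw [C_cons] at e2
      simp only [List.cons.injEq, true_and] at e2
      exact ⟨j, (rep_cancel c.ze _ _ _ _ (C_head c js2) hγ e2).1.symm⟩

theorem map_idx_inj (k k' : c.D) : ∀ (w w' : List ℕ), w ≠ [] →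
    w.map (c.idx k) = w'.map (c.idx k') → k = k' ∧ w = w' := by
  intro w w' hw h
  have hk : k = k' := by
    cases w with
    | nil => exact absurd rfl hw
    | cons x w =>
      cases w' with
      | nil => simp at h
      | cons x' w' =>
        simp only [List.map_cons, List.cons.injEq] at h
        exact (c.inj _ _ _ _ h.1).1
  subst hk
  exact ⟨rfl, List.map_injective_iff.2 (fun x y hxy => (c.inj _ _ _ _ hxy).2) h⟩

theorem enc_length (k : c.D) (w : List ℕ) : (c.L k + 1) * w.length ≤ (c.enc k w).length := by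
  induction w with
  | nil => simp
  | cons x w ih =>
    have h1 := c.bound2 k x
    have h2 : c.idx k x < 2 ^ c.idx k x := Nat.lt_two_pow_self
    unfold Coding.enc at ih ⊢
    rw [List.map_cons, C_cons]
    simp only [List.length_cons, List.length_append, List.length_replicate]
    nlinarith

/-- Unwinding a word down to a base word. -/
inductive Unw : List Y → List Y → Prop
  | base (w : List Y) : (∀ a ∈ w, a ≠ c.sp ∧ a ≠ c.ze) → Unw w w
  | step (k : c.D) (w : List ℕ) (β : List Y) : w ≠ [] →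
      w.foldl (c.A k).t (c.A k).q0 ∈ (c.A k).final →
      Unw (outw (c.A k).t (c.A k).h (c.A k).q0 w) β → Unw (c.enc k w) β

theorem Unw_inv {v β : List Y} (h : Unw c v β) :
    ((∀ a ∈ v, a ≠ c.sp ∧ a ≠ c.ze) ∧ β = v) ∨
    ∃ k w, w ≠ [] ∧ v = c.enc k w ∧ w.foldl (c.A k).t (c.A k).q0 ∈ (c.A k).final ∧
      Unw c (outw (c.A k).t (c.A k).h (c.A k).q0 w) β := by
  cases h with
  | base w hw => exact Or.inl ⟨hw, rfl⟩
  | step k w β h1 h2 h3 => exact Or.inr ⟨k, w, h1, rfl, h2, h3⟩

theorem sp_mem_enc (k : c.D) (w : List ℕ) (hw : w ≠ []) : c.sp ∈ c.enc k w := by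
  cases w with
  | nil => exact absurd rfl hw
  | cons x w => unfold Coding.enc; rw [List.map_cons, C_cons]; simp

theorem Unw_enc (k : c.D) (w : List ℕ) (hw : w ≠ []) (β : List Y) :
    Unw c (c.enc k w) β ↔ w.foldl (c.A k).t (c.A k).q0 ∈ (c.A k).final ∧
      Unw c (outw (c.A k).t (c.A k).h (c.A k).q0 w) β := by
  constructor
  · intro h
    rcases Unw_inv c h with ⟨h1, -⟩ | ⟨k', w', -, e, h2, h3⟩
    · exact absurd rfl (h1 _ (sp_mem_enc c k w hw)).1
    · obtain ⟨rfl, rfl⟩ := map_idx_inj c k k' w w' hw (C_inj c _ _ e)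
      exact ⟨h2, h3⟩
  · rintro ⟨h1, h2⟩
    exact Unw.step k w β hw h1 h2

theorem Unw_base (v β : List Y) (hv : ∀ a ∈ v, a ≠ c.sp ∧ a ≠ c.ze) (h : Unw c v β) : β = v := by
  rcases Unw_inv c h with ⟨-, h1⟩ | ⟨k', w', h1, e, -, -⟩
  · exact h1
  · exact absurd rfl (hv _ (e ▸ sp_mem_enc c k' w' h1)).1

theorem Unw_fun {v β β' : List Y} (h : Unw c v β) (h' : Unw c v β') : β = β' := by
  induction h with
  | base w hw => exact (Unw_base c w β' hw h').symm
  | step k w β h1 _ _ ih => exact ih ((Unw_enc c k w h1 β').1 h').2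

/-- The pumping invariant. -/
def Per (u : List Y) : Prop :=
  ∃ p, 0 < p ∧ ∀ t, ∃ i, ∀ i', i ≤ i' → ∀ α γ β1 β2, Unw c (α ++ pw u i' ++ γ) β1 →
    Unw c (α ++ pw u (i' + t * p) ++ γ) β2 → β1.length = β2.length → β1 = β2

theorem per_lift {X : Type} (g : AGSM X Y) (P : ℕ) (hP : 0 < P)
    (hid : ∀ (f : g.Q → g.Q) q, f^[P] (f^[P] q) = f^[P] q) (u : List X)
    (hper : ∀ q, Per c (outw g.t g.h q (pw u P))) :
    ∃ p, 0 < p ∧ ∀ t, ∃ i, ∀ i', i ≤ i' → ∀ a e β1 β2,
      Unw c (outw g.t g.h g.q0 (a ++ pw u i' ++ e)) β1 →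
      Unw c (outw g.t g.h g.q0 (a ++ pw u (i' + t * p) ++ e)) β2 →
      β1.length = β2.length → β1 = β2 := by
  classical
  have := g.fin
  have := Fintype.ofFinite g.Q
  choose p hp hpp using hper
  choose ι hι using hpp
  refine ⟨P * ∏ q, p q, Nat.mul_pos hP (Finset.prod_pos (fun q _ => hp q)), fun t => ?_⟩
  let tq : g.Q → ℕ := fun q => t * ∏ q' ∈ Finset.univ.erase q, p q'
  have htq : ∀ q, tq q * p q = t * ∏ q, p q := by
    intro q
    simp only [tq]
    rw [mul_assoc, Finset.prod_erase_mul _ _ (Finset.mem_univ q)]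
  refine ⟨P * (∑ q, ι q (tq q) + 1), fun i' hi' a e β1 β2 h1 h2 hl => ?_⟩
  obtain ⟨j, r, hj, rfl⟩ : ∃ j r, ∑ q, ι q (tq q) ≤ j ∧ i' = P + P * j + r :=
    ⟨∑ q, ι q (tq q), i' - P * (∑ q, ι q (tq q) + 1), le_rfl, by
      rw [mul_add, mul_one] at hi' ⊢; omega⟩
  set q1 := (a ++ pw u P).foldl g.t g.q0 with hq1
  have hfix : (pw u P).foldl g.t q1 = q1 := by
    rw [hq1, List.foldl_append, foldl_pw, foldl_pw]
    exact hid _ _
  have key : ∀ j, outw g.t g.h g.q0 (a ++ pw u (P + P * j + r) ++ e) =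
      outw g.t g.h g.q0 (a ++ pw u P) ++ pw (outw g.t g.h q1 (pw u P)) j ++
        outw g.t g.h q1 (pw u r ++ e) := by
    intro j
    have e1 : a ++ pw u (P + P * j + r) ++ e = (a ++ pw u P) ++ (pw (pw u P) j ++ (pw u r ++ e)) := by
      rw [pw_add, pw_add, pw_pw]; simp only [List.append_assoc]
    obtain ⟨f1, f2⟩ := outw_pw g.t g.h (pw u P) q1 hfix j
    rw [e1, outw_append, ← hq1, outw_append g.t g.h (pw (pw u P) j), f1, f2]
    simp only [List.append_assoc]
  rw [key] at h1
  rw [show P + P * j + r + t * (P * ∏ q, p q) = P + P * (j + tq q1 * p q1) + r by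
    rw [htq]; ring, key] at h2
  refine hι q1 (tq q1) j (le_trans ?_ hj) _ _ β1 β2 h1 h2 hl
  exact Finset.single_le_sum (f := fun q => ι q (tq q)) (fun _ _ => Nat.zero_le _)
    (Finset.mem_univ q1)

theorem parse_pw (x y : List Y) (α γ : List Y) (n : ℕ) (k : c.D) (w : List ℕ)
    (h : α ++ pw (x ++ c.sp :: y) (n + 2) ++ γ = c.enc k w) :
    ∃ a m e, w = a ++ m ++ e ∧ c.enc k a = α ++ x ∧
      c.enc k m = pw (c.sp :: y ++ x) (n + 1) ∧ c.enc k e = c.sp :: (y ++ γ) := by
  rw [pw_conj] at h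
  have h1 : c.C (w.map (c.idx k)) =
      (α ++ x ++ pw (c.sp :: y ++ x) (n + 1)) ++ c.sp :: (y ++ γ) := by
    unfold Coding.enc at h; rw [← h]; simp
  obtain ⟨js1, js3, e1, e2, e3⟩ := C_split c _ _ _ h1
  have h2 : c.C js1 = (α ++ x) ++ c.sp :: (y ++ x ++ pw (c.sp :: y ++ x) n) := by
    rw [e2, pw_succ]; simp
  obtain ⟨js0, js2, e4, e5, e6⟩ := C_split c _ _ _ h2
  rw [e4] at e1
  obtain ⟨w1, e, rfl, f1, f3⟩ := List.map_eq_append_iff.1 e1
  obtain ⟨a, m, rfl, f0, f2⟩ := List.map_eq_append_iff.1 f1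
  refine ⟨a, m, e, rfl, by unfold Coding.enc; rw [f0, e5], ?_, by unfold Coding.enc; rw [f3, e3]⟩
  unfold Coding.enc; rw [f2, e6, pw_succ]; simp

theorem enc_inj (k : c.D) (w w' : List ℕ) (h : c.enc k w = c.enc k w') : w = w' :=
  List.map_injective_iff.2 (fun _ _ hxy => (c.inj _ _ _ _ hxy).2) (C_inj c _ _ h)

theorem enc_pw (k : c.D) (w : List ℕ) (n : ℕ) : c.enc k (pw w n) = pw (c.enc k w) n := by
  unfold Coding.enc; rw [pw_map, C_pw]

theorem per_all (u : List Y) : Per c u := by
  induction hn : u.length using Nat.strong_induction_on generalizing u with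
  | _ n ih =>
  by_cases hb : ∃ a ∈ u, a ≠ c.sp ∧ a ≠ c.ze
  · obtain ⟨a, ha, hab⟩ := hb
    refine ⟨1, one_pos, fun t => ⟨1, fun i' hi' α γ β1 β2 h1 h2 hl => ?_⟩⟩
    have base : ∀ i β, 1 ≤ i → Unw c (α ++ pw u i ++ γ) β → β = α ++ pw u i ++ γ := by
      intro i β hi h
      rcases Unw_inv c h with ⟨-, h1⟩ | ⟨k, w, -, e, -, -⟩
      · exact h1
      · exfalso
        obtain ⟨i, rfl⟩ : ∃ j, i = j + 1 := ⟨i - 1, by omega⟩
        have : a ∈ c.enc k w := by rw [← e, pw_succ]; simp [ha]
        rcases C_letters c _ a this with h | h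
        · exact hab.1 h
        · exact hab.2 h
    have e1 := base _ _ hi' h1
    have e2 := base _ _ (by omega) h2
    rw [e1, e2] at hl
    simp only [List.length_append, pw_length] at hl
    have hu : 0 < u.length := List.length_pos_of_mem ha
    have ht : t = 0 := by
      by_contra hcon
      have : 0 < t := Nat.pos_of_ne_zero hcon
      nlinarith
    rw [e1, e2, ht]; simp
  push Not at hb
  by_cases hs : c.sp ∈ u
  swap
  · have hz : ∀ a ∈ u, a = c.ze := fun a ha => hb a ha (fun h => hs (h ▸ ha))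
    have eu : u = List.replicate u.length c.ze := List.eq_replicate_iff.2 ⟨rfl, hz⟩
    have epw : ∀ i, pw u i = List.replicate (i * u.length) c.ze := by
      intro i
      conv_lhs => rw [eu, ← pw_single, pw_pw, pw_single, mul_comm]
    refine ⟨1, one_pos, fun t => ⟨t + 1, fun i' hi' α γ β1 β2 h1 h2 hl => ?_⟩⟩
    rcases Nat.eq_zero_or_pos (t * u.length) with h0 | h0
    · rw [epw] at h1 h2
      rw [show (i' + t * 1) * u.length = i' * u.length by rw [add_mul, mul_one, h0]; rfl] at h2
      exact Unw_fun c h1 h2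
    · exfalso
      have hu : 0 < u.length := Nat.pos_of_mul_pos_left h0
      obtain ⟨e, he⟩ := C_run c α γ
      have coded : ∀ i β, 1 ≤ i → Unw c (α ++ pw u i ++ γ) β → ∃ j, e + i * u.length = 2 ^ j := by
        intro i β hi h
        have hpos : 1 ≤ i * u.length := Nat.mul_pos hi hu
        rcases Unw_inv c h with ⟨h1, -⟩ | ⟨k, w, -, e', -, -⟩
        · exfalso
          refine (h1 c.ze ?_).2 rfl
          rw [epw]
          exact List.mem_append_left _ (List.mem_append_right _
            (List.mem_replicate.2 ⟨by omega, rfl⟩))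
        · rw [epw] at e'
          exact he _ _ hpos e'.symm
      obtain ⟨j1, e1⟩ := coded _ _ (by omega) h1
      obtain ⟨j2, e2⟩ := coded _ _ (by omega) h2
      rw [mul_one, add_mul] at e2
      have hlt : j1 < j2 := by
        apply (Nat.pow_lt_pow_iff_right (a := 2) (by norm_num)).1
        omega
      have : 2 ^ (j1 + 1) ≤ 2 ^ j2 := Nat.pow_le_pow_right (by norm_num) hlt
      rw [pow_succ] at this
      have : (t + 1) * u.length ≤ i' * u.length := Nat.mul_le_mul_right _ hi'
      rw [add_mul] at this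
      omega
  obtain ⟨x, y, rfl⟩ := List.append_of_mem hs
  have coded : ∀ α γ i β, Unw c (α ++ pw (x ++ c.sp :: y) (i + 1) ++ γ) β →
      ∃ k w, α ++ pw (x ++ c.sp :: y) (i + 1) ++ γ = c.enc k w ∧
        Unw c (outw (c.A k).t (c.A k).h (c.A k).q0 w) β := by
    intro α γ i β h
    rcases Unw_inv c h with ⟨h1, -⟩ | ⟨k, w, -, e', -, h3⟩
    · exfalso
      refine (h1 c.sp ?_).1 rfl
      rw [pw_succ]; simp
    · exact ⟨k, w, e', h3⟩
  by_cases hk : ∃ k u', c.enc k u' = c.sp :: y ++ x
  swap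
  · refine ⟨1, one_pos, fun t => ⟨2, fun i' hi' α γ β1 β2 h1 h2 hl => ?_⟩⟩
    exfalso
    obtain ⟨i, rfl⟩ : ∃ j, i' = j + 2 := ⟨i' - 2, by omega⟩
    obtain ⟨k, w, e, -⟩ := coded α γ (i + 1) β1 h1
    have e' : (α ++ pw (x ++ c.sp :: y) i) ++ pw (x ++ c.sp :: y) (0 + 2) ++ γ = c.enc k w := by
      rw [← e, show i + 1 + 1 = i + (0 + 2) by ring, pw_add _ i]; simp only [List.append_assoc]
    obtain ⟨a, m, e2, -, -, h3, -⟩ := parse_pw c x y _ γ 0 k w e'
    exact hk ⟨k, m, by rw [h3, pw_succ, pw_zero]; simp⟩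
  obtain ⟨k, u', hu'⟩ := hk
  have hne : u' ≠ [] := by
    rintro rfl
    simp [Coding.enc, Coding.C] at hu'
  have hlen : ∀ q, (outw (c.A k).t (c.A k).h q (pw u' (c.P k))).length < n := by
    intro q
    have h1 := outw_length_le (c.A k).t (c.A k).h (c.P k * c.P k) (c.L k) (c.bound k)
      (pw u' (c.P k)) q
    have h2 := enc_length c k u'
    rw [hu'] at h2
    have h3 : (c.sp :: y ++ x).length = n := by rw [← hn]; simp; omega
    rw [h3] at h2
    rw [pw_length] at h1
    have h4 := c.Ppos k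
    have h5 : 0 < u'.length := List.length_pos_iff.2 hne
    have h6 : c.P k * (outw (c.A k).t (c.A k).h q (pw u' (c.P k))).length ≤ c.L k * u'.length := by
      apply Nat.le_of_mul_le_mul_left _ h4
      calc _ = c.P k * c.P k * (outw (c.A k).t (c.A k).h q (pw u' (c.P k))).length := by ring
        _ ≤ _ := h1
        _ = _ := by ring
    nlinarith
  obtain ⟨p, hp, hpp⟩ := per_lift c (c.A k) (c.P k) (c.Ppos k) (c.Pid k) u'
    (fun q => ih _ (hlen q) _ rfl)
  refine ⟨p, hp, fun t => ?_⟩
  obtain ⟨i0, hi0⟩ := hpp t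
  refine ⟨i0 + 2, fun i' hi' α γ β1 β2 h1 h2 hl => ?_⟩
  obtain ⟨i, rfl⟩ : ∃ j, i' = j + 2 := ⟨i' - 2, by omega⟩
  have red : ∀ i β, Unw c (α ++ pw (x ++ c.sp :: y) (i + 2) ++ γ) β →
      ∃ a e, c.enc k a = α ++ x ∧ c.enc k e = c.sp :: (y ++ γ) ∧
        Unw c (outw (c.A k).t (c.A k).h (c.A k).q0 (a ++ pw u' (i + 1) ++ e)) β := by
    intro i β h
    obtain ⟨k1, w, e, hw⟩ := coded α γ (i + 1) β h
    obtain ⟨a, m, e2, rfl, f1, f2, f3⟩ := parse_pw c x y α γ i k1 w e
    rw [← hu', ← enc_pw] at f2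
    have hne2 : pw u' (i + 1) ≠ [] := by rw [pw_succ]; simp [hne]
    obtain ⟨rfl, rfl⟩ := map_idx_inj c k k1 _ m hne2 (C_inj c _ _ f2.symm)
    exact ⟨a, e2, f1, f3, hw⟩
  obtain ⟨a1, e1, f1, f2, f3⟩ := red i β1 h1
  rw [show i + 2 + t * p = (i + t * p) + 2 by ring] at h2
  obtain ⟨a2, e2, g1, g2, g3⟩ := red _ β2 h2
  rw [← enc_inj c k _ _ (f1.trans g1.symm), ← enc_inj c k _ _ (f2.trans g2.symm),
    show i + t * p + 1 = (i + 1) + t * p by ring] at g3
  exact hi0 (i + 1) (by omega) a1 e1 β1 β2 f3 g3 hl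

end Pool.Agent.Lib.MP_c9c291_lc
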