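import Mathlib
import Pool.Agent.Lib.MP_c9c291_lc.Code

set_option autoImplicit false

namespace Pool.Agent.Lib.MP_c9c291_lc

/-- Finite descriptions of agsms. -/
def Desc (Y : Type) : Type :=
  Σ (n s : ℕ), (Fin s → Fin n → Fin s × List Y) × Fin s × Set (Fin s)

def Desc.A {Y : Type} (k : Desc Y) : AGSM ℕ Y where
  Q := Fin k.2.1
  fin := inferInstance
  q0 := k.2.2.2.1
  final := k.2.2.2.2
  t := fun q x => if h : x < k.1 then (k.2.2.1 q ⟨x, h⟩).1 else q
  h := fun q x => if h : x < k.1 then (k.2.2.1 q ⟨x, h⟩).2 else []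

theorem desc_univ {Y X : Type} [Finite X] (g : AGSM X Y) :
    ∃ (k : Desc Y) (ι : X → ℕ), ∀ w : List X,
      (w.foldl g.t g.q0 ∈ g.final ↔ (w.map ι).foldl k.A.t k.A.q0 ∈ k.A.final) ∧
      outw g.t g.h g.q0 w = outw k.A.t k.A.h k.A.q0 (w.map ι) := by
  have := g.fin
  obtain ⟨n, ⟨eX⟩⟩ := Finite.exists_equiv_fin X
  obtain ⟨s, ⟨eQ⟩⟩ := Finite.exists_equiv_fin g.Q
  let k : Desc Y := ⟨n, s, fun q x => (eQ (g.t (eQ.symm q) (eX.symm x)), g.h (eQ.symm q) (eX.symm x)),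
    eQ g.q0, {q | eQ.symm q ∈ g.final}⟩
  have ht : ∀ q x, k.A.t (eQ q) (eX x) = eQ (g.t q x) := by
    intro q x; simp [k, Desc.A]
  have hh : ∀ q x, k.A.h (eQ q) (eX x) = g.h q x := by
    intro q x; simp [k, Desc.A]
  have key : ∀ (w : List X) q, (w.map (fun x => (eX x : ℕ))).foldl k.A.t (eQ q) =
      eQ (w.foldl g.t q) ∧
      outw g.t g.h q w = outw k.A.t k.A.h (eQ q) (w.map (fun x => (eX x : ℕ))) := by
    intro w
    induction w with
    | nil => intro q; exact ⟨rfl, rfl⟩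
    | cons x w ih =>
      intro q
      simp only [List.map_cons, List.foldl_cons, outw, ht, hh]
      exact ⟨(ih _).1, by rw [(ih _).2]⟩
  refine ⟨k, fun x => (eX x : ℕ), fun w => ⟨?_, (key w g.q0).2⟩⟩
  have h1 := (key w g.q0).1
  change _ ↔ eQ.symm ((w.map (fun x => (eX x : ℕ))).foldl k.A.t (eQ g.q0)) ∈ g.final
  have h2 : eQ.symm ((w.map (fun x => (eX x : ℕ))).foldl k.A.t (eQ g.q0)) = w.foldl g.t g.q0 :=
    (congrArg eQ.symm h1).trans (eQ.symm_apply_apply _)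
  exact (congrArg (fun q => q ∈ g.final) h2).symm.to_iff

theorem exists_coding (Y : Type) [Finite Y] (sp ze : Y) (hne : sp ≠ ze) :
    ∃ c : Coding Y, c.sp = sp ∧ c.ze = ze ∧ Countable c.D ∧
      ∀ (X : Type) [Finite X] (g : AGSM X Y), ∃ (k : c.D) (ι : X → ℕ), ∀ w : List X,
        (w.foldl g.t g.q0 ∈ g.final ↔ (w.map ι).foldl (c.A k).t (c.A k).q0 ∈ (c.A k).final) ∧
        outw g.t g.h g.q0 w = outw (c.A k).t (c.A k).h (c.A k).q0 (w.map ι) := by
  have hc : Countable (Desc Y) := by unfold Desc; infer_instance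
  obtain ⟨e, he⟩ := exists_injective_nat (Desc Y × ℕ)
  have hP : ∀ k : Desc Y, ∃ P : ℕ, 0 < P ∧ ∀ (f : k.A.Q → k.A.Q) (q : k.A.Q),
      f^[P] (f^[P] q) = f^[P] q := fun k => by
    have := k.A.fin
    exact exists_idem _
  choose P hP1 hP2 using hP
  have hM : ∀ k : Desc Y, ∃ M : ℕ, ∀ q x, (k.A.h q x).length ≤ M := by
    intro k
    refine ⟨∑ qx : Fin k.2.1 × Fin k.1, (k.2.2.1 qx.1 qx.2).2.length, fun q x => ?_⟩
    simp only [Desc.A]
    split_ifs with h
    · exact Finset.single_le_sum (f := fun qx : Fin k.2.1 × Fin k.1 =>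
        (k.2.2.1 qx.1 qx.2).2.length) (fun _ _ => Nat.zero_le _)
        (Finset.mem_univ (α := Fin k.2.1 × Fin k.1) (q, ⟨x, h⟩))
    · simp
  choose M hM using hM
  refine ⟨⟨sp, ze, hne, Desc Y, Desc.A, fun k x => Nat.pair (e (k, x)) (P k * P k * M k), ?_,
    P, hP1, hP2, fun k => P k * P k * M k, ?_, ?_⟩, rfl, rfl, hc, fun X _ g => desc_univ g⟩
  · intro k x k' x' h
    have := he (Nat.pair_eq_pair.1 h).1
    exact ⟨congrArg Prod.fst this, congrArg Prod.snd this⟩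
  · intro k q x
    exact Nat.mul_le_mul_left _ (hM k q x)
  · intro k x
    exact Nat.right_le_pair _ _

/-- Composition of agsms. -/
def AGSM.comp {X Z Y : Type} (g : AGSM X Z) (g' : AGSM Z Y) : AGSM X Y where
  Q := g.Q × g'.Q
  fin := by have := g.fin; have := g'.fin; infer_instance
  q0 := (g.q0, g'.q0)
  final := {q | q.1 ∈ g.final ∧ q.2 ∈ g'.final}
  t := fun q x => (g.t q.1 x, (g.h q.1 x).foldl g'.t q.2)
  h := fun q x => outw g'.t g'.h q.2 (g.h q.1 x)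

theorem comp_run {X Z Y : Type} (g : AGSM X Z) (g' : AGSM Z Y) (w : List X) :
    ∀ q q', w.foldl (g.comp g').t (q, q') = (w.foldl g.t q, (outw g.t g.h q w).foldl g'.t q') ∧
      outw (g.comp g').t (g.comp g').h (q, q') w = outw g'.t g'.h q' (outw g.t g.h q w) := by
  induction w with
  | nil => intro q q'; exact ⟨rfl, rfl⟩
  | cons x w ih =>
    intro q q'
    obtain ⟨h1, h2⟩ := ih (g.t q x) ((g.h q x).foldl g'.t q')
    simp only [List.foldl_cons, outw, List.foldl_append, outw_append]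
    exact ⟨h1, by rw [← h2]; rfl⟩

theorem comp_inv {X Z Y : Type} (g : AGSM X Z) (g' : AGSM Z Y) (M : Language Y) :
    g.inv (g'.inv M) = (g.comp g').inv M := by
  ext w
  obtain ⟨h1, h2⟩ := comp_run g g' w g.q0 g'.q0
  change (_ ∧ _ ∧ _) ↔ (w.foldl (g.comp g').t (g.q0, g'.q0) ∈ (g.comp g').final ∧
    outw (g.comp g').t (g.comp g').h (g.q0, g'.q0) w ∈ M)
  rw [h1, h2]
  exact and_assoc.symm

def homA {X Y : Type} (φ : X → List Y) : AGSM X Y :=
  ⟨Unit, inferInstance, (), Set.univ, fun _ _ => (), fun _ x => φ x⟩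

theorem homA_inv {X Y : Type} (φ : X → List Y) (M : Language Y) :
    (homA φ).inv M = invHom φ M := by
  have : ∀ w : List X, outw (homA φ).t (homA φ).h () w = w.flatMap φ := by
    intro w
    induction w with
    | nil => rfl
    | cons x w ih => rw [List.flatMap_cons, ← ih]; rfl
  ext w
  change (_ ∧ outw (homA φ).t (homA φ).h () w ∈ M) ↔ w.flatMap φ ∈ M
  rw [this]
  exact ⟨fun h => h.2, fun h => ⟨Set.mem_univ _, h⟩⟩

theorem genA_single {Y : Type} (L0 : Language Y) {X : Type} {L : Language X} (h : GenA L0 X L) :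
    ∃ g : AGSM X Y, L = g.inv L0 := by
  induction h with
  | base =>
    refine ⟨homA (fun y => [y]), ?_⟩
    rw [homA_inv]; ext w
    change _ ↔ w.flatMap (fun y => [y]) ∈ L0
    rw [List.flatMap_singleton']
  | inv g _ ih =>
    obtain ⟨g', rfl⟩ := ih
    exact ⟨g.comp g', comp_inv g g' L0⟩

theorem genA_hom {Y : Type} (L0 : Language Y) {X Z : Type} [Finite X] [Finite Z]
    (φ : X → List Z) (M : Language Z) (h : GenA L0 Z M) : GenA L0 X (invHom φ M) := by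
  rw [← homA_inv]; exact GenA.inv _ h

theorem genA_reg {Y : Type} (L0 : Language Y) {X : Type} [Finite X]
    (M R : Language X) (hR : R.IsRegular) (h : GenA L0 X M) : GenA L0 X (M ⊓ R) := by
  obtain ⟨σ, _, D, rfl⟩ := hR
  let g : AGSM X X := ⟨σ, inferInstance, D.start, D.accept, D.step, fun _ x => [x]⟩
  have ho : ∀ (w : List X) q, outw g.t g.h q w = w := by
    intro w
    induction w with
    | nil => intro q; rfl
    | cons x w ih => intro q; simp only [outw, ih]; rfl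
  have : g.inv M = M ⊓ D.accepts := by
    ext w
    change (_ ∧ outw g.t g.h g.q0 w ∈ M) ↔ (w ∈ M ∧ w ∈ D.accepts)
    rw [ho]
    exact and_comm
  rw [← this]; exact GenA.inv _ h

/-- The nonempty words. -/
def nonE (X : Type) : Language X := {w | w ≠ []}

theorem nonE_reg (X : Type) : (nonE X).IsRegular := by
  refine ⟨Bool, inferInstance, ⟨fun _ _ => true, false, {true}⟩, ?_⟩
  ext w
  induction w using List.reverseRecOn with
  | nil =>
    change _ ↔ ([] : List X) ≠ []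
    simp [DFA.mem_accepts]
  | append_singleton w a _ =>
    change _ ↔ w ++ [a] ≠ []
    simp [DFA.mem_accepts, DFA.eval_append_singleton]

theorem fix_eps {X : Type} (L L' : Language X) (h : ∀ w, w ≠ [] → (w ∈ L ↔ w ∈ L'))
    (h0 : [] ∈ L') : L = L' ∨ L = L' ⊓ nonE X := by
  by_cases hL : [] ∈ L
  · left; ext w
    by_cases hw : w = []
    · subst hw; exact ⟨fun _ => h0, fun _ => hL⟩
    · exact h w hw
  · right; ext w
    change _ ↔ (w ∈ L' ∧ w ≠ [])
    by_cases hw : w = []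
    · subst hw; exact ⟨fun h => absurd h hL, fun h => absurd rfl h.2⟩
    · exact ⟨fun h1 => ⟨(h w hw).1 h1, hw⟩, fun h1 => (h w hw).2 h1.1⟩

section
variable {Z : Type} (K : Language Z)

def vv (b : Bool) : Z ⊕ (Bool ⊕ Bool) := Sum.inr (Sum.inl b)

def BaseL (B : Language Bool) : Language (Z ⊕ (Bool ⊕ Bool)) :=
  {β | β = [] ∨ (∃ w ∈ K, β = w.map Sum.inl) ∨ ∃ w ∈ B, β = w.map vv}

def GG (c : Coding (Z ⊕ (Bool ⊕ Bool))) (B : Language Bool) : Language (Z ⊕ (Bool ⊕ Bool)) :=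
  {v | ∃ β, Unw c v β ∧ β ∈ BaseL K B}

theorem vv_inj : Function.Injective (vv : Bool → Z ⊕ (Bool ⊕ Bool)) := by
  intro a b h; simpa [vv] using h

theorem base_inl (B : Language Bool) (w : List Z) (hw : w ≠ []) :
    w.map Sum.inl ∈ BaseL K B ↔ w ∈ K := by
  constructor
  · rintro (h | ⟨w', h1, h2⟩ | ⟨w', h1, h2⟩)
    · simp [hw] at h
    · rw [List.map_injective_iff.2 Sum.inl_injective h2]; exact h1
    · cases w with
      | nil => exact absurd rfl hw
      | cons a w => cases w' <;> simp [vv] at h2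
  · intro h; exact Or.inr (Or.inl ⟨w, h, rfl⟩)

theorem base_vv (B : Language Bool) (w : List Bool) (hw : w ≠ []) :
    w.map vv ∈ BaseL K B ↔ w ∈ B := by
  constructor
  · rintro (h | ⟨w', h1, h2⟩ | ⟨w', h1, h2⟩)
    · simp [hw] at h
    · cases w with
      | nil => exact absurd rfl hw
      | cons a w => cases w' <;> simp [vv] at h2
    · rw [List.map_injective_iff.2 vv_inj h2]; exact h1
  · intro h; exact Or.inr (Or.inr ⟨w, h, rfl⟩)

theorem nil_mem_GL (c : Coding (Z ⊕ (Bool ⊕ Bool))) (B : Language Bool) : [] ∈ GG K c B :=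
  ⟨[], Unw.base [] (by simp), Or.inl rfl⟩

theorem GL_base (c : Coding (Z ⊕ (Bool ⊕ Bool))) (B : Language Bool) (v : List _)
    (hv : ∀ a ∈ v, a ≠ c.sp ∧ a ≠ c.ze) : v ∈ GG K c B ↔ v ∈ BaseL K B := by
  constructor
  · rintro ⟨β, h1, h2⟩
    rwa [Unw_base c v β hv h1] at h2
  · intro h; exact ⟨v, Unw.base v hv, h⟩

theorem GL_enc (c : Coding (Z ⊕ (Bool ⊕ Bool))) (B : Language Bool) (k : c.D) (w : List ℕ)
    (hw : w ≠ []) : c.enc k w ∈ GG K c B ↔ w ∈ (c.A k).inv (GG K c B) := by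
  constructor
  · rintro ⟨β, h1, h2⟩
    obtain ⟨h3, h4⟩ := (Unw_enc c k w hw β).1 h1
    exact ⟨h3, β, h4, h2⟩
  · rintro ⟨h3, β, h4, h2⟩
    exact ⟨β, (Unw_enc c k w hw β).2 ⟨h3, h4⟩, h2⟩

theorem key_lemma (c : Coding (Z ⊕ (Bool ⊕ Bool))) (g : AGSM (Bool ⊕ Fin 3) (Z ⊕ (Bool ⊕ Bool)))
    (N : ℕ) : ∃ (w : List (Bool ⊕ Fin 3)) (β : List Bool), N < β.length ∧
      (∀ M : Language Bool, w ∈ transT M ↔ β ∈ M) ∧
      ¬ Unw c (outw g.t g.h g.q0 w) (β.map vv) := by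
  have := g.fin
  obtain ⟨P, hP, hid⟩ := exists_idem g.Q
  obtain ⟨p, hp, hpp⟩ := per_lift c g P hP hid [ly] (fun q => per_all c _)
  obtain ⟨m, hm⟩ := hpp 1
  obtain ⟨d, rfl⟩ : ∃ d, p = d + 1 := ⟨p - 1, by omega⟩
  have h := hm m le_rfl (hd true N) (tl true false m d)
    ((List.replicate (N + 1) true ++ [true]).map vv)
    ((List.replicate (N + 1) true ++ [false]).map vv)
  rw [pw_single, pw_single, one_mul] at h
  by_cases h1 : Unw c (outw g.t g.h g.q0 (hd true N ++ List.replicate m ly ++ tl true false m d))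
    ((List.replicate (N + 1) true ++ [true]).map vv)
  · refine ⟨_, List.replicate (N + 1) true ++ [false], by simp,
      fun M => test2 true false N m d M, fun h2 => ?_⟩
    have := List.map_injective_iff.2 vv_inj (h h1 h2 (by simp))
    simp at this
  · exact ⟨_, List.replicate (N + 1) true ++ [true], by simp,
      fun M => test1 true false N m d M, h1⟩

theorem step_lemma (c : Coding (Z ⊕ (Bool ⊕ Bool)))
    (g : AGSM (Bool ⊕ Fin 3) (Z ⊕ (Bool ⊕ Bool))) (N : ℕ) (B0 : Language Bool) :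
    ∃ (N' : ℕ) (B1 : Language Bool), N < N' ∧ (∀ β, β.length ≤ N → (β ∈ B1 ↔ β ∈ B0)) ∧
      ∀ B : Language Bool, (∀ β, β.length ≤ N' → (β ∈ B ↔ β ∈ B1)) →
        transT B ≠ g.inv (GG K c B) := by
  obtain ⟨w, β, hN, hT, hU⟩ := key_lemma c g N
  have hex : ∃ n', ∀ β', Unw c (outw g.t g.h g.q0 w) β' → β'.length ≤ n' := by
    by_cases h : ∃ β', Unw c (outw g.t g.h g.q0 w) β'
    · obtain ⟨β', h⟩ := h
      exact ⟨β'.length, fun β'' h' => by rw [Unw_fun c h' h]⟩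
    · exact ⟨0, fun β'' h' => absurd ⟨β'', h'⟩ h⟩
  obtain ⟨n', hn'⟩ := hex
  let B1 : Language Bool := {γ | (γ ≠ β ∧ γ ∈ B0) ∨ (γ = β ∧ w ∉ g.inv (GG K c B0))}
  have hB1 : ∀ γ, γ ≠ β → (γ ∈ B1 ↔ γ ∈ B0) := fun γ hγ =>
    ⟨fun h => h.elim (fun h => h.2) (fun h => absurd h.1 hγ), fun h => Or.inl ⟨hγ, h⟩⟩
  have hB2 : β ∈ B1 ↔ w ∉ g.inv (GG K c B0) :=
    ⟨fun h => h.elim (fun h => absurd rfl h.1) (fun h => h.2), fun h => Or.inr ⟨rfl, h⟩⟩
  refine ⟨max β.length n', B1, lt_of_lt_of_le hN (le_max_left _ _),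
    fun γ hγ => hB1 γ (by rintro rfl; omega), fun B hB heq => ?_⟩
  have transfer : ∀ B B' : Language Bool,
      (∀ γ, γ ≠ β → γ.length ≤ n' → γ ∈ B → γ ∈ B') →
      w ∈ g.inv (GG K c B) → w ∈ g.inv (GG K c B') := by
    rintro B B' h ⟨h1, β', h2, h3⟩
    refine ⟨h1, β', h2, ?_⟩
    rcases h3 with h3 | h3 | ⟨γ, h3, rfl⟩
    · exact Or.inl h3
    · exact Or.inr (Or.inl h3)
    · refine Or.inr (Or.inr ⟨γ, h γ ?_ ?_ h3, rfl⟩)
      · rintro rfl; exact hU h2
      · simpa using hn' _ h2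
  have e1 : w ∈ g.inv (GG K c B) ↔ w ∈ g.inv (GG K c B0) :=
    ⟨transfer B B0 (fun γ h1 h2 h3 =>
        (hB1 γ h1).1 ((hB γ (h2.trans (le_max_right _ _))).1 h3)),
      transfer B0 B (fun γ h1 h2 h3 =>
        (hB γ (h2.trans (le_max_right _ _))).2 ((hB1 γ h1).2 h3))⟩
  have e2 : w ∈ transT B ↔ w ∉ g.inv (GG K c B0) := by
    rw [hT, hB β (le_max_left _ _), hB2]
  rw [heq, e1] at e2
  exact iff_not_self e2

theorem diagonal (c : Coding (Z ⊕ (Bool ⊕ Bool)))
    (gs : ℕ → AGSM (Bool ⊕ Fin 3) (Z ⊕ (Bool ⊕ Bool))) :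
    ∃ B : Language Bool, [] ∉ B ∧ ∀ j, transT B ≠ (gs j).inv (GG K c B) := by
  choose N' B1 h1 h2 h3 using step_lemma K c
  let S : ℕ → ℕ × Language Bool := fun j =>
    Nat.rec (0, (0 : Language Bool)) (fun j s => (N' (gs j) s.1 s.2, B1 (gs j) s.1 s.2)) j
  have hS : ∀ j, S (j + 1) = (N' (gs j) (S j).1 (S j).2, B1 (gs j) (S j).1 (S j).2) :=
    fun j => rfl
  have hN : ∀ j, (S j).1 < (S (j + 1)).1 := fun j => h1 _ _ _
  have hNj : ∀ j, j ≤ (S j).1 := by
    intro j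
    induction j with
    | zero => exact Nat.zero_le _
    | succ j ih => have := hN j; omega
  have hag : ∀ i j, i ≤ j → ∀ β : List Bool, β.length ≤ (S i).1 → (β ∈ (S j).2 ↔ β ∈ (S i).2) := by
    intro i j hij β hβ
    induction hij with
    | refl => rfl
    | @step j hij ih =>
      rw [← ih]
      exact h2 _ _ _ β (hβ.trans ((strictMono_nat_of_lt_succ hN).monotone hij))
  refine ⟨{β | β ∈ (S β.length).2}, fun h => h, fun j => ?_⟩
  apply h3 (gs j) (S j).1 (S j).2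
  intro β hβ
  change β ∈ (S β.length).2 ↔ β ∈ (S (j + 1)).2
  rcases le_total β.length (j + 1) with h | h
  · exact (hag _ _ h β (hNj _)).symm
  · exact hag _ _ h β hβ

end

theorem main (Z : Type) [Finite Z] (K : Language Z) :
    ∃ F : Family, F Z K ∧ IsAgsmPrincipal F ∧ IsCPrincipal F ∧
      ∃ M : Language Bool, F Bool M ∧ [] ∉ M ∧ ¬ F (Bool ⊕ Fin 3) (transT M) := by
  obtain ⟨c, hsp, hze, hcount, huniv⟩ := exists_coding (Z ⊕ (Bool ⊕ Bool))
    (Sum.inr (Sum.inr false)) (Sum.inr (Sum.inr true)) (by simp)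
  have hne : Nonempty (c.D × ((Bool ⊕ Fin 3) → ℕ)) := by
    obtain ⟨k, ι, -⟩ := huniv (Bool ⊕ Fin 3) (homA (fun _ => []))
    exact ⟨(k, ι)⟩
  obtain ⟨en, hen⟩ := exists_surjective_nat (c.D × ((Bool ⊕ Fin 3) → ℕ))
  obtain ⟨B, hB0, hB⟩ := diagonal K c
    (fun j => (homA (fun x => [(en j).2 x])).comp (c.A (en j).1))
  have hinv : ∀ (X : Type) [Finite X] (g : AGSM X (Z ⊕ (Bool ⊕ Bool))), ∃ (k : c.D) (ι : X → ℕ),
      ∀ w, w ∈ g.inv (GG K c B) ↔ w.map ι ∈ (c.A k).inv (GG K c B) := by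
    intro X _ g
    obtain ⟨k, ι, h⟩ := huniv X g
    refine ⟨k, ι, fun w => ?_⟩
    change (_ ∧ _) ↔ (_ ∧ _)
    rw [(h w).1, (h w).2]
  have hemb : ∀ (X : Type) [Finite X] (ι : X → Z ⊕ (Bool ⊕ Bool)) (L : Language X),
      (∀ x, ι x ≠ c.sp ∧ ι x ≠ c.ze) → (∀ w, w ≠ [] → (w.map ι ∈ BaseL K B ↔ w ∈ L)) →
      GenA (GG K c B) X L := by
    intro X _ ι L h1 h2
    have hg := genA_hom (GG K c B) (fun x => [ι x]) _ GenA.base
    rcases fix_eps L (invHom (fun x => [ι x]) (GG K c B)) (fun w hw => by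
      change _ ↔ w.flatMap (fun x => [ι x]) ∈ GG K c B
      rw [← List.map_eq_flatMap, GL_base K c B _ (by
        intro a ha
        obtain ⟨x, _, rfl⟩ := List.mem_map.1 ha
        exact h1 x), h2 w hw]) (nil_mem_GL K c B) with h | h
    · rw [h]; exact hg
    · rw [h]; exact genA_reg _ _ _ (nonE_reg X) hg
  refine ⟨fun X _ L => GenA (GG K c B) X L, ?_, ⟨?_, ?_⟩, ⟨?_, ?_, ?_⟩, B, ?_, hB0, ?_⟩
  · exact hemb Z Sum.inl K (fun x => by rw [hsp, hze]; simp) (base_inl K B)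
  · intro X Z' _ _ g M h; exact GenA.inv g h
  · exact ⟨_, inferInstance, GG K c B, GenA.base, fun X _ L h => h⟩
  · intro X Z' _ _ φ M h; exact genA_hom _ φ M h
  · intro X _ M R hR h; exact genA_reg _ M R hR h
  · refine ⟨_, inferInstance, GG K c B, GenA.base, fun X _ L h => ?_⟩
    obtain ⟨g, rfl⟩ := genA_single _ h
    obtain ⟨k, ι, hk⟩ := hinv X g
    have hg : GenC (GG K c B) X (invHom (fun x => c.cw (c.idx k (ι x))) (GG K c B)) :=
      GenC.hom _ GenC.base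
    rcases fix_eps (g.inv (GG K c B)) (invHom (fun x => c.cw (c.idx k (ι x))) (GG K c B))
      (fun w hw => by
        rw [hk, ← GL_enc K c B k _ (by simpa using hw)]
        change _ ↔ w.flatMap (fun x => c.cw (c.idx k (ι x))) ∈ GG K c B
        simp [Coding.enc, Coding.C, List.flatMap_map]) (nil_mem_GL K c B) with h | h
    · rw [h]; exact hg
    · rw [h]; exact GenC.reg (nonE_reg X) hg
  · exact hemb Bool vv B (fun x => by rw [hsp, hze]; simp [vv]) (base_vv K B)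
  · intro h
    obtain ⟨g, hg⟩ := genA_single _ h
    obtain ⟨k, ι, hk⟩ := hinv _ g
    obtain ⟨j, hj⟩ := hen (k, ι)
    apply hB j
    rw [hj, ← comp_inv, homA_inv, hg]
    ext w
    rw [hk]
    change _ ↔ w.flatMap (fun x => [ι x]) ∈ (c.A k).inv (GG K c B)
    rw [← List.map_eq_flatMap]

end Pool.Agent.Lib.MP_c9c291_lc
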