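import Mathlib
import Pool.Agent.Lib.MP_c9c291_lc.Main
import Pool.Agent.Lib.MP_c9c291_lc.Defs2

set_option autoImplicit false

open Computability

namespace Pool.Agent.Lib.MP_c9c291_lc

variable {X : Type}

/-- Tail languages that contain `y` and produce no output in the parser. -/
def Adm (B : Language (X ⊕ Fin 3)) : Prop :=
  [ly] ∈ B ∧ ∀ b ∈ B, outw pstep pout (0, 0) b = []

theorem adm_langB : Adm (langB X) := ⟨mem_B1, B_parse⟩

theorem wait_noz' (k : ℕ) (w : List (X ⊕ Fin 3)) (hw : lz ∉ w) :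
    outw pstep pout (1, k) w = [] := by
  induction w with
  | nil => rfl
  | cons a w ih =>
    have h1 : a ≠ lz := fun h => hw (by simp [h])
    have h2 : lz ∉ w := fun h => hw (by simp [h])
    rcases a with x | i
    · simp [outw, pstep, pout, ih h2]
    · have : i ≠ 2 := fun h => h1 (by simp [h, lz])
      simp [outw, pstep, pout, this, ih h2]

theorem ys_run (u : List (X ⊕ Fin 3)) (hu : ∀ a ∈ u, a = ly) :
    ∀ k, u.foldl pstep (0, k) = (0, k + u.length) ∧ outw pstep pout (0, k) u = [] := by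
  induction u with
  | nil => intro k; exact ⟨rfl, rfl⟩
  | cons a u ih =>
    intro k
    have h1 : a = ly := hu a List.mem_cons_self
    obtain ⟨h2, h3⟩ := ih (fun b hb => hu b (List.mem_cons_of_mem _ hb)) (k + 1)
    subst h1
    refine ⟨?_, ?_⟩
    · have : pstep (0, k) (ly : X ⊕ Fin 3) = (0, k + 1) := by simp [pstep, ly]
      rw [List.foldl_cons, this, h2, List.length_cons]
      congr 1; omega
    · have : pstep (0, k) (ly : X ⊕ Fin 3) = (0, k + 1) := by simp [pstep, ly]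
      rw [outw, this, h3]
      simp [pout, ly]

theorem blocks_parse (k : ℕ) (b : List (X ⊕ Fin 3))
    (h : b ∈ (one lb * (langX X)∗ * (one ly * (one ly)∗))∗) : outw pstep pout (0, k) b = [] := by
  have hz := kstar_letters _ (· ≠ lz) (fun w hw => (blockB w hw).2) b h
  obtain ⟨S, rfl, hS⟩ := Language.mem_kstar.1 h
  cases S with
  | nil => rfl
  | cons l S =>
    obtain ⟨w', rfl⟩ := (blockB l (hS l List.mem_cons_self)).1
    have hz' : lz ∉ w' ++ S.flatten := fun h => hz lz (by simp at h ⊢; tauto) rfl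
    have := wait_noz' k _ hz'
    simpa [outw, pstep, pout, lb] using this

theorem adm_langBp : Adm (langBp X) := by
  refine ⟨Language.mem_mul.2 ⟨[ly], Language.mem_mul.2 ⟨[ly], rfl, [], Language.nil_mem_kstar _, rfl⟩,
    [], Language.nil_mem_kstar _, rfl⟩, ?_⟩
  intro b hb
  obtain ⟨u, hu, v, hv, rfl⟩ := Language.mem_mul.1 hb
  obtain ⟨u1, hu1, u2, hu2, rfl⟩ := Language.mem_mul.1 hu
  have e1 : u1 = [ly] := hu1
  have h2 := kstar_letters (one (ly : X ⊕ Fin 3)) (· = ly) (by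
    intro w hw a ha
    have : w = [ly] := hw
    subst this; simpa using ha) u2 hu2
  obtain ⟨h3, h4⟩ := ys_run (u1 ++ u2) (by
    intro a ha
    rcases List.mem_append.1 ha with h | h
    · subst e1; simpa using h
    · exact h2 a h) 0
  rw [outw_append, h3, h4, blocks_parse _ v hv]
  rfl

theorem BodyB_parse {B : Language (X ⊕ Fin 3)} (hB : Adm B) {f : List X} {w : List (X ⊕ Fin 3)}
    (h : BodyB B f w) : outw pstep pout (0, 0) w = f := by
  induction h with
  | last f hb => simp [outw, pstep, pout, hB.2 _ hb]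
  | cons f ha _ ih =>
    obtain ⟨h1, h2⟩ := (V_parse ha).1 rfl
    simp [outw, outw_append, pstep, pout, h1, h2, ih]

theorem mem_transTB_iff {B : Language (X ⊕ Fin 3)} (hB : Adm B) {f : List X}
    {w : List (X ⊕ Fin 3)} (h : BodyB B f w) (M : Language X) :
    lz :: lb :: w ∈ transTB B M ↔ f ∈ M := by
  constructor
  · rintro ⟨f', hf', w', hw', e⟩
    simp only [List.cons.injEq, true_and] at e
    subst e
    rw [← BodyB_parse hB h, BodyB_parse hB hw']; exact hf'
  · intro hf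
    exact ⟨f, hf, w, h, rfl⟩

theorem BodyB_rep {B : Language (X ⊕ Fin 3)} (p : X) (N : ℕ) {f : List X}
    {w : List (X ⊕ Fin 3)} (h : BodyB B f w) :
    BodyB B (List.replicate N p ++ f) (List.replicate N (Sum.inl p) ++ w) := by
  induction N with
  | zero => simpa using h
  | succ N ih =>
    have := BodyB.cons p V.v0_eps ih
    simpa [List.replicate_succ] using this

theorem V3_by (d : ℕ) : V 3 (by_ d ++ [(lb : X ⊕ Fin 3)]) := by
  induction d with
  | zero => simpa [by_] using (V.v3_end : V 3 [(lb : X ⊕ Fin 3)])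
  | succ d ih =>
    have := V.v3_b (V.v3_y ih)
    have e : by_ (X := X) (d + 1) = by_ d ++ [lb, ly] := by
      simp [by_, List.replicate_succ']
    rw [e]
    simpa using this

def tlB (p q : X) (m d : ℕ) : List (X ⊕ Fin 3) :=
  lz :: List.replicate m lb ++ Sum.inl p :: by_ d ++ [lb, Sum.inl q, lz, Sum.inl p, ly]

theorem testB1 {B : Language (X ⊕ Fin 3)} (hB : Adm B) (p q : X) (N m d : ℕ) (M : Language X) :
    hd p N ++ List.replicate m ly ++ tlB p q m d ∈ transTB B M ↔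
      List.replicate (N + 1) p ++ [p, p] ∈ M := by
  have h := BodyB_rep p N (BodyB.cons p (V.v0_v1 (V1_zero m))
    (BodyB.cons p (V.v0_v1 (V.v1_v3 (V.v3_x q (V3_by d)))) (BodyB.last p hB.1)))
  have := mem_transTB_iff hB h M
  rw [List.replicate_succ' (n := N) (a := p)]
  simpa [hd, tlB, List.replicate_succ'] using this

theorem testB2 {B : Language (X ⊕ Fin 3)} (hB : Adm B) (p q : X) (N m d : ℕ) (M : Language X) :
    hd p N ++ List.replicate (m + (d + 1)) ly ++ tlB p q m d ∈ transTB B M ↔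
      List.replicate (N + 1) p ++ [q, p] ∈ M := by
  have h := BodyB_rep p N (BodyB.cons p (V.v0_v1 (V1_more p m d))
    (BodyB.cons q (V.v0_v1 V.v1_z) (BodyB.last p hB.1)))
  have := mem_transTB_iff hB h M
  rw [List.replicate_succ' (n := N) (a := p)]
  simpa [hd, tlB, List.replicate_succ' (n := N)] using this

section
variable {Z : Type} (K : Language Z)

theorem key_lemmaB (c : Coding (Z ⊕ (Bool ⊕ Bool))) (g : AGSM (Bool ⊕ Fin 3) (Z ⊕ (Bool ⊕ Bool)))
    (N : ℕ) : ∃ (w : List (Bool ⊕ Fin 3)) (β : List Bool), N < β.length ∧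
      (∀ T : Language (Bool ⊕ Fin 3), Adm T → ∀ M : Language Bool, w ∈ transTB T M ↔ β ∈ M) ∧
      ¬ Unw c (outw g.t g.h g.q0 w) (β.map vv) := by
  have := g.fin
  obtain ⟨P, hP, hid⟩ := exists_idem g.Q
  obtain ⟨p, hp, hpp⟩ := per_lift c g P hP hid [ly] (fun q => per_all c _)
  obtain ⟨m, hm⟩ := hpp 1
  obtain ⟨d, rfl⟩ : ∃ d, p = d + 1 := ⟨p - 1, by omega⟩
  have h := hm m le_rfl (hd true N) (tlB true false m d)
    ((List.replicate (N + 1) true ++ [true, true]).map vv)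
    ((List.replicate (N + 1) true ++ [false, true]).map vv)
  rw [pw_single, pw_single, one_mul] at h
  by_cases h1 : Unw c (outw g.t g.h g.q0 (hd true N ++ List.replicate m ly ++ tlB true false m d))
    ((List.replicate (N + 1) true ++ [true, true]).map vv)
  · refine ⟨_, List.replicate (N + 1) true ++ [false, true], by simp; omega,
      fun T hT M => testB2 hT true false N m d M, fun h2 => ?_⟩
    have := List.map_injective_iff.2 vv_inj (h h1 h2 (by simp))
    simp at this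
  · exact ⟨_, List.replicate (N + 1) true ++ [true, true], by simp; omega,
      fun T hT M => testB1 hT true false N m d M, h1⟩

theorem step_lemmaB (c : Coding (Z ⊕ (Bool ⊕ Bool)))
    (g : AGSM (Bool ⊕ Fin 3) (Z ⊕ (Bool ⊕ Bool))) (N : ℕ) (B0 : Language Bool) :
    ∃ (N' : ℕ) (B1 : Language Bool), N < N' ∧ (∀ β, β.length ≤ N → (β ∈ B1 ↔ β ∈ B0)) ∧
      ∀ B : Language Bool, (∀ β, β.length ≤ N' → (β ∈ B ↔ β ∈ B1)) →
        ∀ T : Language (Bool ⊕ Fin 3), Adm T → transTB T B ≠ g.inv (GG K c B) := by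
  obtain ⟨w, β, hN, hT, hU⟩ := key_lemmaB c g N
  have hex : ∃ n', ∀ β', Unw c (outw g.t g.h g.q0 w) β' → β'.length ≤ n' := by
    by_cases h : ∃ β', Unw c (outw g.t g.h g.q0 w) β'
    · obtain ⟨β', h⟩ := h
      exact ⟨β'.length, fun β'' h' => by rw [Unw_fun c h' h]⟩
    · exact ⟨0, fun β'' h' => absurd ⟨β'', h'⟩ h⟩
  obtain ⟨n', hn'⟩ := hex
  let B1 : Language Bool := {γ | (γ ≠ β ∧ γ ∈ B0) ∨ (γ = β ∧ w ∉ g.inv (GG K c B0))}
  have hB1 : ∀ γ, γ ≠ β → (γ ∈ B1 ↔ γ ∈ B0) := fun γ hγ =>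
    ⟨fun h => h.elim (fun h => h.2) (fun h => absurd h.1 hγ), fun h => Or.inl ⟨hγ, h⟩⟩
  have hB2 : β ∈ B1 ↔ w ∉ g.inv (GG K c B0) :=
    ⟨fun h => h.elim (fun h => absurd rfl h.1) (fun h => h.2), fun h => Or.inr ⟨rfl, h⟩⟩
  refine ⟨max β.length n', B1, lt_of_lt_of_le hN (le_max_left _ _),
    fun γ hγ => hB1 γ (by rintro rfl; omega), fun B hB T hTa heq => ?_⟩
  have transfer : ∀ B B' : Language Bool,
      (∀ γ, γ ≠ β → γ.length ≤ n' → γ ∈ B → γ ∈ B') →
      w ∈ g.inv (GG K c B) → w ∈ g.inv (GG K c B') := by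
    rintro B B' h ⟨h1, β', h2, h3⟩
    refine ⟨h1, β', h2, ?_⟩
    rcases h3 with h3 | h3 | ⟨γ, h3, rfl⟩
    · exact Or.inl h3
    · exact Or.inr (Or.inl h3)
    · refine Or.inr (Or.inr ⟨γ, h γ ?_ ?_ h3, rfl⟩)
      · rintro rfl; exact hU h2
      · simpa using hn' _ h2
  have e1 : w ∈ g.inv (GG K c B) ↔ w ∈ g.inv (GG K c B0) :=
    ⟨transfer B B0 (fun γ h1 h2 h3 =>
        (hB1 γ h1).1 ((hB γ (h2.trans (le_max_right _ _))).1 h3)),
      transfer B0 B (fun γ h1 h2 h3 =>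
        (hB γ (h2.trans (le_max_right _ _))).2 ((hB1 γ h1).2 h3))⟩
  have e2 : w ∈ transTB T B ↔ w ∉ g.inv (GG K c B0) := by
    rw [hT T hTa, hB β (le_max_left _ _), hB2]
  rw [heq, e1] at e2
  exact iff_not_self e2

theorem diagonalB (c : Coding (Z ⊕ (Bool ⊕ Bool)))
    (gs : ℕ → AGSM (Bool ⊕ Fin 3) (Z ⊕ (Bool ⊕ Bool))) :
    ∃ B : Language Bool, [] ∉ B ∧ ∀ j, ∀ T : Language (Bool ⊕ Fin 3), Adm T →
      transTB T B ≠ (gs j).inv (GG K c B) := by
  choose N' B1 h1 h2 h3 using step_lemmaB K c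
  let S : ℕ → ℕ × Language Bool := fun j =>
    Nat.rec (0, (0 : Language Bool)) (fun j s => (N' (gs j) s.1 s.2, B1 (gs j) s.1 s.2)) j
  have hS : ∀ j, S (j + 1) = (N' (gs j) (S j).1 (S j).2, B1 (gs j) (S j).1 (S j).2) :=
    fun j => rfl
  have hN : ∀ j, (S j).1 < (S (j + 1)).1 := fun j => h1 _ _ _
  have hNj : ∀ j, j ≤ (S j).1 := by
    intro j
    induction j with
    | zero => exact Nat.zero_le _
    | succ j ih => have := hN j; omega
  have hag : ∀ i j, i ≤ j → ∀ β : List Bool, β.length ≤ (S i).1 → (β ∈ (S j).2 ↔ β ∈ (S i).2) := by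
    intro i j hij β hβ
    induction hij with
    | refl => rfl
    | @step j hij ih =>
      rw [← ih]
      exact h2 _ _ _ β (hβ.trans ((strictMono_nat_of_lt_succ hN).monotone hij))
  refine ⟨{β | β ∈ (S β.length).2}, fun h => h, fun j => ?_⟩
  apply h3 (gs j) (S j).1 (S j).2
  intro β hβ
  change β ∈ (S β.length).2 ↔ β ∈ (S (j + 1)).2
  rcases le_total β.length (j + 1) with h | h
  · exact (hag _ _ h β (hNj _)).symm
  · exact hag _ _ h β hβ

end

theorem mainB (Z : Type) [Finite Z] (K : Language Z) :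
    ∃ F : Family, F Z K ∧ IsAgsmPrincipal F ∧ IsCPrincipal F ∧
      ∃ M : Language Bool, F Bool M ∧ [] ∉ M ∧
        ∀ T : Language (Bool ⊕ Fin 3), Adm T → ¬ F (Bool ⊕ Fin 3) (transTB T M) := by
  obtain ⟨c, hsp, hze, hcount, huniv⟩ := exists_coding (Z ⊕ (Bool ⊕ Bool))
    (Sum.inr (Sum.inr false)) (Sum.inr (Sum.inr true)) (by simp)
  have hne : Nonempty (c.D × ((Bool ⊕ Fin 3) → ℕ)) := by
    obtain ⟨k, ι, -⟩ := huniv (Bool ⊕ Fin 3) (homA (fun _ => []))
    exact ⟨(k, ι)⟩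
  obtain ⟨en, hen⟩ := exists_surjective_nat (c.D × ((Bool ⊕ Fin 3) → ℕ))
  obtain ⟨B, hB0, hB⟩ := diagonalB K c
    (fun j => (homA (fun x => [(en j).2 x])).comp (c.A (en j).1))
  have hinv : ∀ (X : Type) [Finite X] (g : AGSM X (Z ⊕ (Bool ⊕ Bool))), ∃ (k : c.D) (ι : X → ℕ),
      ∀ w, w ∈ g.inv (GG K c B) ↔ w.map ι ∈ (c.A k).inv (GG K c B) := by
    intro X _ g
    obtain ⟨k, ι, h⟩ := huniv X g
    refine ⟨k, ι, fun w => ?_⟩
    change (_ ∧ _) ↔ (_ ∧ _)
    rw [(h w).1, (h w).2]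
  have hemb : ∀ (X : Type) [Finite X] (ι : X → Z ⊕ (Bool ⊕ Bool)) (L : Language X),
      (∀ x, ι x ≠ c.sp ∧ ι x ≠ c.ze) → (∀ w, w ≠ [] → (w.map ι ∈ BaseL K B ↔ w ∈ L)) →
      GenA (GG K c B) X L := by
    intro X _ ι L h1 h2
    have hg := genA_hom (GG K c B) (fun x => [ι x]) _ GenA.base
    rcases fix_eps L (invHom (fun x => [ι x]) (GG K c B)) (fun w hw => by
      change _ ↔ w.flatMap (fun x => [ι x]) ∈ GG K c B
      rw [← List.map_eq_flatMap, GL_base K c B _ (by
        intro a ha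
        obtain ⟨x, _, rfl⟩ := List.mem_map.1 ha
        exact h1 x), h2 w hw]) (nil_mem_GL K c B) with h | h
    · rw [h]; exact hg
    · rw [h]; exact genA_reg _ _ _ (nonE_reg X) hg
  refine ⟨fun X _ L => GenA (GG K c B) X L, ?_, ⟨?_, ?_⟩, ⟨?_, ?_, ?_⟩, B, ?_, hB0, ?_⟩
  · exact hemb Z Sum.inl K (fun x => by rw [hsp, hze]; simp) (base_inl K B)
  · intro X Z' _ _ g M h; exact GenA.inv g h
  · exact ⟨_, inferInstance, GG K c B, GenA.base, fun X _ L h => h⟩
  · intro X Z' _ _ φ M h; exact genA_hom _ φ M h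
  · intro X _ M R hR h; exact genA_reg _ M R hR h
  · refine ⟨_, inferInstance, GG K c B, GenA.base, fun X _ L h => ?_⟩
    obtain ⟨g, rfl⟩ := genA_single _ h
    obtain ⟨k, ι, hk⟩ := hinv X g
    have hg : GenC (GG K c B) X (invHom (fun x => c.cw (c.idx k (ι x))) (GG K c B)) :=
      GenC.hom _ GenC.base
    rcases fix_eps (g.inv (GG K c B)) (invHom (fun x => c.cw (c.idx k (ι x))) (GG K c B))
      (fun w hw => by
        rw [hk, ← GL_enc K c B k _ (by simpa using hw)]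
        change _ ↔ w.flatMap (fun x => c.cw (c.idx k (ι x))) ∈ GG K c B
        simp [Coding.enc, Coding.C, List.flatMap_map]) (nil_mem_GL K c B) with h | h
    · rw [h]; exact hg
    · rw [h]; exact GenC.reg (nonE_reg X) hg
  · exact hemb Bool vv B (fun x => by rw [hsp, hze]; simp [vv]) (base_vv K B)
  · intro T hT h
    obtain ⟨g, hg⟩ := genA_single _ h
    obtain ⟨k, ι, hk⟩ := hinv _ g
    obtain ⟨j, hj⟩ := hen (k, ι)
    apply hB j T hT
    rw [hj, ← comp_inv, homA_inv, hg]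
    ext w
    rw [hk]
    change _ ↔ w.flatMap (fun x => [ι x]) ∈ (c.A k).inv (GG K c B)
    rw [← List.map_eq_flatMap]

end Pool.Agent.Lib.MP_c9c291_lc
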